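import Pool.Agent.W792.WA.Stm

/-! Project WA, part GAIN. -/

set_option autoImplicit false

namespace Pool.Agent.W881.WA.Gain

open MeasureTheory Complex Pool.Agent.W792.LL Pool.Agent.W792.WA
open scoped ComplexConjugate

/-- Quadratic polynomials. -/
noncomputable def pl (q : ℂ × ℂ × ℂ) (a : ℂ) : ℂ := q.1 + q.2.1 * a + q.2.2 * a ^ 2

theorem pl_bound (q : ℂ × ℂ × ℂ) (a : ℂ) : ‖pl q a‖ ≤ (1 + ‖a‖ + ‖a‖ ^ 2) * ‖q‖ := by
  have h1 : ‖q.1‖ ≤ ‖q‖ := norm_fst_le q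
  have h2 : ‖q.2.1‖ ≤ ‖q‖ := (norm_fst_le q.2).trans (norm_snd_le q)
  have h3 : ‖q.2.2‖ ≤ ‖q‖ := (norm_snd_le q.2).trans (norm_snd_le q)
  unfold pl
  calc ‖q.1 + q.2.1 * a + q.2.2 * a ^ 2‖ ≤ ‖q.1‖ + ‖q.2.1 * a‖ + ‖q.2.2 * a ^ 2‖ := norm_add₃_le
    _ = ‖q.1‖ + ‖q.2.1‖ * ‖a‖ + ‖q.2.2‖ * ‖a‖ ^ 2 := by rw [norm_mul, norm_mul, norm_pow]
    _ ≤ ‖q‖ + ‖q‖ * ‖a‖ + ‖q‖ * ‖a‖ ^ 2 := by gcongr
    _ = (1 + ‖a‖ + ‖a‖ ^ 2) * ‖q‖ := by ring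

theorem pl_smul (r : ℝ) (q : ℂ × ℂ × ℂ) (a : ℂ) : pl (r • q) a = r * pl q a := by
  unfold pl
  simp only [Prod.smul_fst, Prod.smul_snd, Complex.real_smul]
  ring

theorem pl_roots (q : ℂ × ℂ × ℂ) (hq : q ≠ 0) :
    ∃ b c : ℝ, ∀ a : ℝ, pl q a = 0 → a = b ∨ a = c := by
  by_contra hcon
  push Not at hcon
  obtain ⟨a1, h1, _, _⟩ := hcon 0 0
  obtain ⟨a2, h2, h21, _⟩ := hcon a1 a1
  obtain ⟨a3, h3, h31, h32⟩ := hcon a1 a2
  apply hq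
  unfold pl at h1 h2 h3
  have n1 : ((a2 : ℂ) - a1) ≠ 0 := sub_ne_zero.2 (by exact_mod_cast h21)
  have n2 : ((a3 : ℂ) - a1) ≠ 0 := sub_ne_zero.2 (by exact_mod_cast h31)
  have n3 : ((a3 : ℂ) - a2) ≠ 0 := sub_ne_zero.2 (by exact_mod_cast h32)
  have e1 : ((a2 : ℂ) - a1) * (q.2.1 + q.2.2 * (a1 + a2)) = 0 := by linear_combination h2 - h1
  have e2 : ((a3 : ℂ) - a1) * (q.2.1 + q.2.2 * (a1 + a3)) = 0 := by linear_combination h3 - h1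
  have e1' := (mul_eq_zero.1 e1).resolve_left n1
  have e2' := (mul_eq_zero.1 e2).resolve_left n2
  have e3 : ((a3 : ℂ) - a2) * q.2.2 = 0 := by linear_combination e2' - e1'
  have q22 := (mul_eq_zero.1 e3).resolve_left n3
  have q21 : q.2.1 = 0 := by rw [q22] at e1'; simpa using e1'
  have q1 : q.1 = 0 := by rw [q22, q21] at h1; simpa using h1
  exact Prod.ext q1 (Prod.ext q21 q22)

theorem pl_cont (q : ℂ × ℂ × ℂ) : Continuous fun a : ℝ => pl q a := by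
  unfold pl
  fun_prop

theorem ae_abs (ρ : Measure ℝ) (C : ℝ) (hρ : ρ (Set.Icc (-C) C)ᶜ = 0) : ∀ᵐ a ∂ρ, |a| ≤ C := by
  have : ∀ᵐ a ∂ρ, a ∈ Set.Icc (-C) C := hρ
  filter_upwards [this] with a ha
  exact abs_le.2 ha

theorem pl_bdd (q : ℂ × ℂ × ℂ) (C a : ℝ) (ha : |a| ≤ C) :
    ‖pl q a‖ ^ 2 ≤ ((1 + C + C ^ 2) * ‖q‖) ^ 2 := by
  have h := pl_bound q a
  rw [Complex.norm_real, Real.norm_eq_abs] at h
  have h0 := abs_nonneg a
  refine pow_le_pow_left₀ (norm_nonneg _) (h.trans ?_) 2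
  gcongr

theorem pl_int (ρ : Measure ℝ) [IsProbabilityMeasure ρ] (C : ℝ)
    (hρ : ρ (Set.Icc (-C) C)ᶜ = 0) (q : ℂ × ℂ × ℂ) :
    Integrable (fun a : ℝ => ‖pl q a‖ ^ 2) ρ := by
  refine Integrable.of_bound ((pl_cont q).norm.pow 2).aestronglyMeasurable
    (((1 + C + C ^ 2) * ‖q‖) ^ 2) ?_
  filter_upwards [ae_abs ρ C hρ] with a ha
  rw [Real.norm_eq_abs, abs_of_nonneg (by positivity)]
  exact pl_bdd q C a ha

theorem moment (ρ : Measure ℝ) [IsProbabilityMeasure ρ] (C : ℝ) (hρ : ρ (Set.Icc (-C) C)ᶜ = 0)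
    (h2 : ∀ a b : ℝ, ρ {a, b} < 1) :
    ∃ κ : ℝ, 0 < κ ∧ ∀ q : ℂ × ℂ × ℂ, κ * ‖q‖ ^ 2 ≤ ∫ a : ℝ, ‖pl q a‖ ^ 2 ∂ρ := by
  have hcont : ContinuousOn (fun q : ℂ × ℂ × ℂ => ∫ a : ℝ, ‖pl q a‖ ^ 2 ∂ρ)
      (Metric.sphere 0 1) := by
    apply continuousOn_of_dominated (bound := fun _ => ((1 + C + C ^ 2) * 1) ^ 2)
    · intro q _
      exact ((pl_cont q).norm.pow 2).aestronglyMeasurable
    · intro q hq
      filter_upwards [ae_abs ρ C hρ] with a ha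
      rw [Real.norm_eq_abs, abs_of_nonneg (by positivity)]
      have := pl_bdd q C a ha
      rwa [mem_sphere_zero_iff_norm.1 hq] at this
    · exact integrable_const _
    · refine Filter.Eventually.of_forall fun a => Continuous.continuousOn ?_
      unfold pl
      fun_prop
  obtain ⟨q0, hq0, hmin⟩ := (isCompact_sphere (0 : ℂ × ℂ × ℂ) 1).exists_isMinOn
    ⟨((1 : ℂ), (0 : ℂ), (0 : ℂ)), by simp⟩ hcont
  have hne : q0 ≠ 0 := by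
    intro h
    rw [h] at hq0
    simp at hq0
  refine ⟨∫ a : ℝ, ‖pl q0 a‖ ^ 2 ∂ρ, ?_, ?_⟩
  · refine lt_of_le_of_ne (integral_nonneg fun a => by positivity) (Ne.symm ?_)
    intro h0
    rw [integral_eq_zero_iff_of_nonneg (fun a => by positivity) (pl_int ρ C hρ q0)] at h0
    obtain ⟨b, c, hbc⟩ := pl_roots q0 hne
    have h3 : ∀ᵐ a ∂ρ, a ∈ ({b, c} : Set ℝ) := by
      filter_upwards [h0] with a ha
      have h4 : ‖pl q0 a‖ ^ 2 = 0 := ha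
      rw [sq_eq_zero_iff, norm_eq_zero] at h4
      rcases hbc a h4 with h | h
      · left; exact h
      · right; exact h
    have h4 : ρ {b, c} = 1 :=
      (prob_compl_eq_zero_iff (Set.toFinite ({b, c} : Set ℝ)).measurableSet).1 h3
    exact (h2 b c).ne h4
  · intro q
    by_cases hq : q = 0
    · subst hq
      rw [norm_zero]
      have : 0 ≤ ∫ a : ℝ, ‖pl 0 a‖ ^ 2 ∂ρ := integral_nonneg fun a => by positivity
      simpa using this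
    · have hn : 0 < ‖q‖ := norm_pos_iff.2 hq
      have hmem : ‖q‖⁻¹ • q ∈ Metric.sphere (0 : ℂ × ℂ × ℂ) 1 := by
        rw [mem_sphere_zero_iff_norm, norm_smul, norm_inv, norm_norm, inv_mul_cancel₀ hn.ne']
      have h1 := hmin hmem
      have h3 : ∫ a : ℝ, ‖pl (‖q‖⁻¹ • q) a‖ ^ 2 ∂ρ = (‖q‖⁻¹) ^ 2 * ∫ a : ℝ, ‖pl q a‖ ^ 2 ∂ρ := by
        rw [← integral_const_mul]
        congr 1
        funext a
        rw [pl_smul, norm_mul, mul_pow, Complex.norm_real, norm_inv, norm_norm]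
      have h4 : ∫ a : ℝ, ‖pl q0 a‖ ^ 2 ∂ρ ≤ (‖q‖⁻¹) ^ 2 * ∫ a : ℝ, ‖pl q a‖ ^ 2 ∂ρ := by
        rw [← h3]; exact h1
      calc (∫ a : ℝ, ‖pl q0 a‖ ^ 2 ∂ρ) * ‖q‖ ^ 2
          ≤ ((‖q‖⁻¹) ^ 2 * ∫ a : ℝ, ‖pl q a‖ ^ 2 ∂ρ) * ‖q‖ ^ 2 := by gcongr
        _ = ∫ a : ℝ, ‖pl q a‖ ^ 2 ∂ρ := by field_simp


/-- The main lower bound. -/
theorem lower (ρ : Measure ℝ) [IsProbabilityMeasure ρ] (C : ℝ) (hC : 0 ≤ C)
    (hρ : ρ (Set.Icc (-C) C)ᶜ = 0) (κ : ℝ) (hκ : 0 < κ)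
    (hm : ∀ q : ℂ × ℂ × ℂ, κ * ‖q‖ ^ 2 ≤ ∫ a : ℝ, ‖pl q a‖ ^ 2 ∂ρ) (R τ : ℝ) (hR : 0 < R)
    (hτ : 0 < τ) (y1 y2 g v u : ℂ) (h1 : y1.im < 0) (h2 : τ ≤ y2.im) (h2R : ‖y2‖ ≤ R) :
    κ * (τ / (τ + C + R)) ^ 2 / ((1 + R + R ^ 2) ^ 2 * (C + R) ^ 2) * ‖g‖ ^ 2
      ≤ ∫ a : ℝ, ‖g / (a + y2) - v / (a + y1) - u‖ ^ 2 ∂ρ := by
  set I := ∫ a : ℝ, ‖g / (a + y2) - v / (a + y1) - u‖ ^ 2 ∂ρ with hI
  set q : ℂ × ℂ × ℂ := (g * y1 - v * y2 - u * y1 * y2, g - v - u * (y1 + y2), -u) with hq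
  have n1 : ∀ a : ℝ, (a : ℂ) + y1 ≠ 0 := by
    intro a h
    have := congrArg Complex.im h
    simp at this
    linarith
  have n2 : ∀ a : ℝ, (a : ℂ) + y2 ≠ 0 := by
    intro a h
    have := congrArg Complex.im h
    simp at this
    linarith
  have hy1 : 0 < ‖y1‖ := by
    rw [norm_pos_iff]
    rintro rfl
    simp at h1
  have hpl : ∀ a : ℝ, pl q a = (g / (a + y2) - v / (a + y1) - u) * ((a + y1) * (a + y2)) := by
    intro a
    have := n1 a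
    have := n2 a
    rw [hq]
    unfold pl
    field_simp
    ring
  have hub : ∀ a : ℝ, |a| ≤ C → ‖pl q a‖ ^ 2 ≤ ((C + ‖y1‖) * (C + R)) ^ 2 *
      ‖g / (a + y2) - v / (a + y1) - u‖ ^ 2 := by
    intro a ha
    rw [hpl, norm_mul, norm_mul, mul_pow, mul_comm]
    have h3 : ‖(a : ℂ) + y1‖ ≤ C + ‖y1‖ := by
      refine (norm_add_le _ _).trans ?_
      rw [Complex.norm_real, Real.norm_eq_abs]
      gcongr
    have h4 : ‖(a : ℂ) + y2‖ ≤ C + R := by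
      refine (norm_add_le _ _).trans ?_
      rw [Complex.norm_real, Real.norm_eq_abs]
      gcongr
    gcongr
  have hcontG : Continuous fun a : ℝ => ‖g / (a + y2) - v / (a + y1) - u‖ ^ 2 := by
    refine Continuous.pow (Continuous.norm ?_) 2
    refine Continuous.sub (Continuous.sub ?_ ?_) continuous_const
    · exact continuous_const.div (by fun_prop) n2
    · exact continuous_const.div (by fun_prop) n1
  have hintG : Integrable (fun a : ℝ => ‖g / (a + y2) - v / (a + y1) - u‖ ^ 2) ρ := by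
    refine Integrable.of_bound hcontG.aestronglyMeasurable
      ((‖g‖ / y2.im + ‖v‖ / (-y1.im) + ‖u‖) ^ 2) ?_
    refine Filter.Eventually.of_forall fun a => ?_
    rw [Real.norm_eq_abs, abs_of_nonneg (by positivity)]
    refine pow_le_pow_left₀ (norm_nonneg _) ?_ 2
    have h5 : y2.im ≤ ‖(a : ℂ) + y2‖ := by
      have := Complex.im_le_norm ((a : ℂ) + y2)
      simpa using this
    have h6 : -y1.im ≤ ‖(a : ℂ) + y1‖ := by
      have := (neg_le_abs _).trans (Complex.abs_im_le_norm ((a : ℂ) + y1))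
      simpa using this
    refine (norm_sub_le _ _).trans (add_le_add_left ((norm_sub_le _ _).trans ?_) _)
    rw [norm_div, norm_div]
    have h7 : 0 < y2.im := by linarith
    have h8 : 0 < -y1.im := by linarith
    gcongr
  have hub2 : ∫ a : ℝ, ‖pl q a‖ ^ 2 ∂ρ ≤ ((C + ‖y1‖) * (C + R)) ^ 2 * I := by
    rw [hI, ← integral_const_mul]
    refine integral_mono_ae (pl_int ρ C hρ q) (hintG.const_mul _) ?_
    filter_upwards [ae_abs ρ C hρ] with a ha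
    exact hub a ha
  have hg : ‖g‖ * ‖y1 - y2‖ ≤ (1 + R + R ^ 2) * ‖q‖ := by
    have h3 : pl q (-y2) = g * (y1 - y2) := by
      rw [hq]
      unfold pl
      ring
    rw [← norm_mul, ← h3]
    refine (pl_bound q (-y2)).trans ?_
    rw [norm_neg]
    gcongr
  set r := ‖y1 - y2‖ with hr
  have hrτ : τ ≤ r := by
    have := (Complex.abs_im_le_norm (y1 - y2))
    rw [Complex.sub_im] at this
    have h3 := neg_le_abs (y1.im - y2.im)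
    rw [hr]
    linarith
  have hθ : τ / (τ + C + R) * (C + ‖y1‖) ≤ r := by
    have h3 : ‖y1‖ ≤ r + R := by
      have : y1 = (y1 - y2) + y2 := by ring
      calc ‖y1‖ = ‖(y1 - y2) + y2‖ := by rw [← this]
        _ ≤ r + ‖y2‖ := norm_add_le _ _
        _ ≤ r + R := by gcongr
    rw [div_mul_eq_mul_div, div_le_iff₀ (by positivity)]
    nlinarith [mul_le_mul_of_nonneg_right hrτ (by positivity : 0 ≤ C + R)]
  set θ := τ / (τ + C + R) with hθd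
  have hθ0 : 0 < θ := by positivity
  have hI0 : 0 ≤ I := integral_nonneg fun a => by positivity
  have e1 : ‖g‖ * (θ * (C + ‖y1‖)) ≤ (1 + R + R ^ 2) * ‖q‖ :=
    (mul_le_mul_of_nonneg_left hθ (norm_nonneg _)).trans hg
  have e2 : (‖g‖ * (θ * (C + ‖y1‖))) ^ 2 ≤ ((1 + R + R ^ 2) * ‖q‖) ^ 2 :=
    pow_le_pow_left₀ (by positivity) e1 2
  have e3 : κ * ‖q‖ ^ 2 ≤ ((C + ‖y1‖) * (C + R)) ^ 2 * I := (hm q).trans hub2
  have e4 : κ * (‖g‖ * (θ * (C + ‖y1‖))) ^ 2 ≤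
      (1 + R + R ^ 2) ^ 2 * (((C + ‖y1‖) * (C + R)) ^ 2 * I) := by
    calc κ * (‖g‖ * (θ * (C + ‖y1‖))) ^ 2 ≤ κ * ((1 + R + R ^ 2) * ‖q‖) ^ 2 := by gcongr
      _ = (1 + R + R ^ 2) ^ 2 * (κ * ‖q‖ ^ 2) := by ring
      _ ≤ _ := by gcongr
  have hpos : 0 < (C + ‖y1‖) ^ 2 := by positivity
  have e5 : (κ * θ ^ 2 * ‖g‖ ^ 2) * (C + ‖y1‖) ^ 2 ≤
      ((1 + R + R ^ 2) ^ 2 * (C + R) ^ 2 * I) * (C + ‖y1‖) ^ 2 := by
    calc (κ * θ ^ 2 * ‖g‖ ^ 2) * (C + ‖y1‖) ^ 2 = κ * (‖g‖ * (θ * (C + ‖y1‖))) ^ 2 := by ring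
      _ ≤ _ := e4
      _ = _ := by ring
  have e6 := le_of_mul_le_mul_right e5 hpos
  rw [div_mul_eq_mul_div, div_le_iff₀ (by positivity)]
  linarith

/-- Variance as an integral. -/
theorem var_eq (ρ : Measure ℝ) [IsProbabilityMeasure ρ] (X : ℝ → ℂ) (hX : Integrable X ρ)
    (hX2 : Integrable (fun a => ‖X a‖ ^ 2) ρ) :
    ∫ a, ‖X a - ∫ b, X b ∂ρ‖ ^ 2 ∂ρ = ∫ a, ‖X a‖ ^ 2 ∂ρ - ‖∫ a, X a ∂ρ‖ ^ 2 := by
  set c := ∫ b, X b ∂ρ with hc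
  have h1 : ∀ a, ‖X a - c‖ ^ 2 = ‖X a‖ ^ 2 + ‖c‖ ^ 2 - 2 * (X a * conj c).re := by
    intro a
    rw [← Complex.normSq_eq_norm_sq, ← Complex.normSq_eq_norm_sq, ← Complex.normSq_eq_norm_sq,
      Complex.normSq_sub]
  have h2 : Integrable (fun a => X a * conj c) ρ := hX.mul_const _
  have h3 : Integrable (fun a => (X a * conj c).re) ρ := h2.re
  have h4 : ∫ a, (X a * conj c).re ∂ρ = (c * conj c).re := by
    have : ∫ a, (X a * conj c).re ∂ρ = (∫ a, X a * conj c ∂ρ).re := integral_re h2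
    rw [this, integral_mul_const]
  have h6 : Integrable (fun a => ‖X a‖ ^ 2 + ‖c‖ ^ 2) ρ := hX2.add (integrable_const _)
  simp_rw [h1]
  rw [integral_sub h6 (h3.const_mul 2), integral_add hX2
    (integrable_const _), integral_const_mul, h4, integral_const]
  have h5 : (c * conj c).re = ‖c‖ ^ 2 := by
    rw [Complex.mul_conj, Complex.ofReal_re, Complex.normSq_eq_norm_sq]
  rw [h5]
  simp
  ring

theorem nsq (g v f : ℂ) :
    ‖conj g - v * f‖ ^ 2 = ‖g‖ ^ 2 + ‖v‖ ^ 2 * ‖f‖ ^ 2 - 2 * (v * (f * g)).re := by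
  rw [← Complex.normSq_eq_norm_sq, ← Complex.normSq_eq_norm_sq, ← Complex.normSq_eq_norm_sq,
    ← Complex.normSq_eq_norm_sq]
  simp only [Complex.normSq_apply, Complex.sub_re, Complex.sub_im, Complex.mul_re, Complex.mul_im,
    Complex.conj_re, Complex.conj_im]
  ring

/-- Covariance inequality. -/
theorem cov_ineq (ρ : Measure ℝ) [IsProbabilityMeasure ρ] (F G : ℝ → ℂ) (hF : Integrable F ρ)
    (hG : Integrable G ρ) (hF2 : Integrable (fun a => ‖F a‖ ^ 2) ρ)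
    (hG2 : Integrable (fun a => ‖G a‖ ^ 2) ρ) (hFG : Integrable (fun a => F a * G a) ρ) (γ : ℝ)
    (h : ∀ v u : ℂ, γ * (∫ a, ‖G a‖ ^ 2 ∂ρ - ‖∫ a, G a ∂ρ‖ ^ 2) ≤
      ∫ a, ‖conj (G a) - v * F a - u‖ ^ 2 ∂ρ) :
    ‖∫ a, F a * G a ∂ρ - (∫ a, F a ∂ρ) * ∫ a, G a ∂ρ‖ ^ 2 ≤
      (1 - γ) * ((∫ a, ‖F a‖ ^ 2 ∂ρ - ‖∫ a, F a ∂ρ‖ ^ 2) *
        (∫ a, ‖G a‖ ^ 2 ∂ρ - ‖∫ a, G a ∂ρ‖ ^ 2)) := by
  set VF := ∫ a, ‖F a‖ ^ 2 ∂ρ - ‖∫ a, F a ∂ρ‖ ^ 2 with hVF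
  set VG := ∫ a, ‖G a‖ ^ 2 ∂ρ - ‖∫ a, G a ∂ρ‖ ^ 2 with hVG
  set Cv := ∫ a, F a * G a ∂ρ - (∫ a, F a ∂ρ) * ∫ a, G a ∂ρ with hCv
  have hVF0 : 0 ≤ VF := by
    rw [hVF, ← var_eq ρ F hF hF2]
    exact integral_nonneg fun a => by positivity
  have hv : ∀ v : ℂ, γ * VG ≤ VG + ‖v‖ ^ 2 * VF - 2 * (v * Cv).re := by
    intro v
    have hp : ∀ a, ‖conj (G a) - v * F a‖ ^ 2 =
        ‖G a‖ ^ 2 + ‖v‖ ^ 2 * ‖F a‖ ^ 2 - 2 * (v * (F a * G a)).re := by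
      intro a
      exact nsq _ _ _
    have i1 : Integrable (fun a => conj (G a)) ρ := by
      have := (Complex.conjCLE.toContinuousLinearMap).integrable_comp hG
      exact this
    have i2 : Integrable (fun a => conj (G a) - v * F a) ρ := i1.sub (hF.const_mul v)
    have i3 : Integrable (fun a => (v * (F a * G a)).re) ρ := (hFG.const_mul v).re
    have i4 : Integrable (fun a => ‖G a‖ ^ 2 + ‖v‖ ^ 2 * ‖F a‖ ^ 2) ρ :=
      hG2.add (hF2.const_mul _)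
    have i5 : Integrable (fun a => ‖conj (G a) - v * F a‖ ^ 2) ρ := by
      simp_rw [hp]
      exact i4.sub (i3.const_mul 2)
    have e1 := var_eq ρ (fun a => conj (G a) - v * F a) i2 i5
    have e2 : ∫ a, ‖conj (G a) - v * F a‖ ^ 2 ∂ρ = ∫ a, ‖G a‖ ^ 2 ∂ρ +
        ‖v‖ ^ 2 * ∫ a, ‖F a‖ ^ 2 ∂ρ - 2 * (v * ∫ a, F a * G a ∂ρ).re := by
      simp_rw [hp]
      rw [integral_sub i4 (i3.const_mul 2), integral_add hG2 (hF2.const_mul _),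
        integral_const_mul, integral_const_mul]
      have : ∫ a, (v * (F a * G a)).re ∂ρ = (∫ a, v * (F a * G a) ∂ρ).re :=
        integral_re (hFG.const_mul v)
      rw [this, integral_const_mul]
    have e3 : ∫ a, (conj (G a) - v * F a) ∂ρ = conj (∫ a, G a ∂ρ) - v * ∫ a, F a ∂ρ := by
      rw [integral_sub i1 (hF.const_mul v), integral_const_mul, integral_conj]
    have e4 : ‖conj (∫ a, G a ∂ρ) - v * ∫ a, F a ∂ρ‖ ^ 2 = ‖∫ a, G a ∂ρ‖ ^ 2 +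
        ‖v‖ ^ 2 * ‖∫ a, F a ∂ρ‖ ^ 2 - 2 * (v * ((∫ a, F a ∂ρ) * ∫ a, G a ∂ρ)).re :=
      nsq _ _ _
    have e5 := h v (∫ a, (conj (G a) - v * F a) ∂ρ)
    rw [e1, e2, e3, e4] at e5
    have e6 : (v * Cv).re = (v * ∫ a, F a * G a ∂ρ).re -
        (v * ((∫ a, F a ∂ρ) * ∫ a, G a ∂ρ)).re := by
      rw [← Complex.sub_re, ← mul_sub]
    rw [e6]
    have e7 : VG + ‖v‖ ^ 2 * VF = ∫ a, ‖G a‖ ^ 2 ∂ρ - ‖∫ a, G a ∂ρ‖ ^ 2 + ‖v‖ ^ 2 *
        (∫ a, ‖F a‖ ^ 2 ∂ρ - ‖∫ a, F a ∂ρ‖ ^ 2) := by rw [hVF, hVG]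
    rw [e7]
    linarith
  -- choose `v = t conj Cv`
  set K := ‖Cv‖ ^ 2 with hK
  have hK0 : 0 ≤ K := by positivity
  have ht : ∀ t : ℝ, γ * VG ≤ VG + t ^ 2 * K * VF - 2 * t * K := by
    intro t
    have := hv (t * conj Cv)
    have e1 : ‖(t : ℂ) * conj Cv‖ ^ 2 = t ^ 2 * K := by
      rw [norm_mul, mul_pow, Complex.norm_real, Real.norm_eq_abs, sq_abs, RCLike.norm_conj]
    have e2 : ((t : ℂ) * conj Cv * Cv).re = t * K := by
      rw [mul_assoc, mul_comm (conj Cv), Complex.mul_conj, ← Complex.ofReal_mul,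
        Complex.ofReal_re, Complex.normSq_eq_norm_sq]
    rw [e1, e2] at this
    linarith
  rcases hVF0.eq_or_lt with h0 | h0
  · rw [← h0, zero_mul, mul_zero]
    by_contra hc
    push Not at hc
    have h1 := ht 0
    have h3 := ht (((1 - γ) * VG + 1) / K)
    rw [← h0, mul_zero, add_zero] at h3
    have h4 : 2 * (((1 - γ) * VG + 1) / K) * K = 2 * ((1 - γ) * VG + 1) := by
      field_simp
    rw [h4] at h3
    nlinarith
  · have h1 := ht (1 / VF)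
    have h3 : (1 / VF) ^ 2 * K * VF = K / VF := by field_simp
    have h4 : 2 * (1 / VF) * K = 2 * (K / VF) := by ring
    rw [h3, h4] at h1
    have h5 : K / VF ≤ (1 - γ) * VG := by linarith
    rw [div_le_iff₀ h0] at h5
    linarith

/-- The functions `β`. -/
noncomputable def bt (x s : ℂ) (a : ℝ) : ℂ := cayx x a / (1 - cayx x a * s)

theorem den_ne (x : ℂ) (hx : x.im ≤ 0) (a : ℝ) : x + a - I ≠ 0 := by
  intro h
  have := congrArg Complex.im h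
  simp at this
  linarith

theorem cayx_norm (x : ℂ) (hx : x.im ≤ 0) (a : ℝ) : ‖cayx x a‖ ≤ 1 := by
  unfold cayx
  rw [norm_div, div_le_one (norm_pos_iff.2 (den_ne x hx a))]
  rw [← sq_le_sq₀ (norm_nonneg _) (norm_nonneg _), ← Complex.normSq_eq_norm_sq,
    ← Complex.normSq_eq_norm_sq, Complex.normSq_apply, Complex.normSq_apply]
  simp only [Complex.add_re, Complex.add_im, Complex.sub_re, Complex.sub_im, Complex.ofReal_re,
    Complex.ofReal_im, Complex.I_re, Complex.I_im]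
  nlinarith

theorem cayx_cont (x : ℂ) (hx : x.im ≤ 0) : Continuous fun a : ℝ => cayx x a := by
  unfold cayx
  exact Continuous.div (by fun_prop) (by fun_prop) (den_ne x hx)

theorem ws_norm (x s : ℂ) (hx : x.im ≤ 0) (a : ℝ) : ‖cayx x a * s‖ ≤ ‖s‖ := by
  rw [norm_mul]
  exact mul_le_of_le_one_left (norm_nonneg _) (cayx_norm x hx a)

theorem dn_norm (x s : ℂ) (hx : x.im ≤ 0) (a : ℝ) : 1 - ‖s‖ ≤ ‖1 - cayx x a * s‖ := by
  have h1 := norm_sub_norm_le (1 : ℂ) (cayx x a * s)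
  rw [norm_one] at h1
  have := ws_norm x s hx a
  linarith

theorem dn_ne (x s : ℂ) (hx : x.im ≤ 0) (hs : ‖s‖ < 1) (a : ℝ) : 1 - cayx x a * s ≠ 0 := by
  have := dn_norm x s hx a
  rw [← norm_pos_iff]
  linarith

theorem bt_cont (x s : ℂ) (hx : x.im ≤ 0) (hs : ‖s‖ < 1) : Continuous (bt x s) := by
  unfold bt
  exact (cayx_cont x hx).div (continuous_const.sub ((cayx_cont x hx).mul continuous_const))
    (dn_ne x s hx hs)

theorem bt_norm (x s : ℂ) (hx : x.im ≤ 0) (hs : ‖s‖ < 1) (a : ℝ) :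
    ‖bt x s a‖ ≤ 1 / (1 - ‖s‖) := by
  unfold bt
  rw [norm_div]
  have h1 := dn_norm x s hx a
  have h2 := cayx_norm x hx a
  have h3 : 0 < 1 - ‖s‖ := by linarith
  gcongr

theorem bt_eq (x s : ℂ) (hx : x.im ≤ 0) (hs : ‖s‖ < 1) (a : ℝ) :
    bt x s a = 1 / (1 - s) + (2 * I / (1 - s) ^ 2) / (a + (x - I * (1 + s) / (1 - s))) := by
  have h1 : (1 : ℂ) - s ≠ 0 := by
    intro h
    rw [sub_eq_zero] at h
    rw [← h, norm_one] at hs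
    exact lt_irrefl _ hs
  have h2 := den_ne x hx a
  have h3 := dn_ne x s hx hs a
  have he : (x + a - I) - s * (x + a + I) ≠ 0 := by
    intro h
    apply h3
    unfold cayx
    field_simp
    linear_combination h
  have h4 : bt x s a = (x + a + I) / ((x + a - I) - s * (x + a + I)) := by
    unfold bt
    rw [div_eq_div_iff h3 he]
    unfold cayx
    field_simp
  have h5 : (a : ℂ) + (x - I * (1 + s) / (1 - s)) =
      ((x + a - I) - s * (x + a + I)) / (1 - s) := by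
    field_simp
    ring
  rw [h4, h5]
  have h6 : x + a + I = ((x + a - I - s * (x + a + I)) + 2 * I) / (1 - s) := by
    rw [eq_div_iff h1]
    ring
  generalize (x + a - I - s * (x + a + I)) = e at he h6
  rw [h6]
  field_simp

/-- `y`. -/
noncomputable def yy (x s : ℂ) : ℂ := x - I * (1 + s) / (1 - s)

theorem one_sub_ne (s : ℂ) (hs : ‖s‖ < 1) : (1 : ℂ) - s ≠ 0 := by
  intro h
  rw [sub_eq_zero] at h
  rw [← h, norm_one] at hs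
  exact lt_irrefl _ hs

theorem yy_im (x s : ℂ) (hx : x.im ≤ 0) (hs : ‖s‖ < 1) :
    (1 - ‖s‖ ^ 2) / 4 ≤ -(yy x s).im := by
  have h1 := one_sub_ne s hs
  have h2 : (I * (1 + s) / (1 - s)).im = (1 - ‖s‖ ^ 2) / ‖1 - s‖ ^ 2 := by
    rw [Complex.div_im, ← Complex.normSq_eq_norm_sq, ← Complex.normSq_eq_norm_sq]
    simp only [Complex.mul_re, Complex.mul_im, Complex.I_re, Complex.I_im, Complex.add_re,
      Complex.add_im, Complex.one_re, Complex.one_im, Complex.sub_re, Complex.sub_im,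
      Complex.normSq_apply]
    rw [← sub_div]
    congr 1
    ring
  have h3 : ‖1 - s‖ ^ 2 ≤ 4 := by
    have : ‖1 - s‖ ≤ 2 := by
      refine (norm_sub_le _ _).trans ?_
      rw [norm_one]
      linarith
    nlinarith [norm_nonneg (1 - s)]
  have h4 : 0 < ‖1 - s‖ ^ 2 := by
    have := norm_pos_iff.2 h1
    positivity
  have h5 : 0 ≤ 1 - ‖s‖ ^ 2 := by nlinarith [norm_nonneg s]
  unfold yy
  rw [Complex.sub_im, h2]
  have h6 : (1 - ‖s‖ ^ 2) / 4 ≤ (1 - ‖s‖ ^ 2) / ‖1 - s‖ ^ 2 := by gcongr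
  linarith

theorem yy_norm (x s : ℂ) (D σ : ℝ) (hD : ‖x‖ ≤ D) (hσ : 0 < σ) (hs : ‖s‖ ≤ 1 - σ) :
    ‖yy x s‖ ≤ D + 2 / σ := by
  unfold yy
  refine (norm_sub_le _ _).trans (add_le_add hD ?_)
  rw [norm_div, norm_mul, Complex.norm_I, one_mul]
  have h1 : ‖1 + s‖ ≤ 2 := by
    refine (norm_add_le _ _).trans ?_
    rw [norm_one]
    linarith
  have h2 : σ ≤ ‖1 - s‖ := by
    have := norm_sub_norm_le (1 : ℂ) s
    rw [norm_one] at this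
    linarith
  gcongr

/-- The lower bound for `β`. -/
theorem lower_bt (ρ : Measure ℝ) [IsProbabilityMeasure ρ] (C : ℝ) (hC : 0 ≤ C)
    (hρ : ρ (Set.Icc (-C) C)ᶜ = 0) (h2 : ∀ a b : ℝ, ρ {a, b} < 1) (D σ : ℝ) (hD : 0 ≤ D)
    (hσ : 0 < σ) : ∃ c : ℝ, 0 < c ∧ ∀ x s₁ s₂ v u : ℂ, ‖x‖ ≤ D → x.im ≤ 0 → ‖s₁‖ < 1 →
      ‖s₂‖ ≤ 1 - σ → c ≤ ∫ a : ℝ, ‖conj (bt x s₂ a) - v * bt x s₁ a - u‖ ^ 2 ∂ρ := by
  obtain ⟨κ, hκ, hm⟩ := moment ρ C hρ h2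
  have hR : 0 < D + 2 / σ := by positivity
  have hτ : 0 < σ / 4 := by positivity
  refine ⟨κ * (σ / 4 / (σ / 4 + C + (D + 2 / σ))) ^ 2 /
    ((1 + (D + 2 / σ) + (D + 2 / σ) ^ 2) ^ 2 * (C + (D + 2 / σ)) ^ 2) * (1 / 4),
    by positivity, ?_⟩
  intro x s1 s2 v u hx hx' hs1 hs2
  have hs2' : ‖s2‖ < 1 := by linarith
  have y1 := yy_im x s1 hx' hs1
  have y2 := yy_im x s2 hx' hs2'
  have y2n := yy_norm x s2 D σ hx hσ hs2
  have h3 : (yy x s1).im < 0 := by nlinarith [norm_nonneg s1]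
  have h4 : σ / 4 ≤ (conj (yy x s2)).im := by
    rw [Complex.conj_im]
    nlinarith [norm_nonneg s2]
  have h5 : ‖conj (yy x s2)‖ ≤ D + 2 / σ := by
    rw [RCLike.norm_conj]; exact y2n
  have h6 := lower ρ C hC hρ κ hκ hm (D + 2 / σ) (σ / 4) hR hτ (yy x s1) (conj (yy x s2))
    (conj (2 * I / (1 - s2) ^ 2)) (v * (2 * I / (1 - s1) ^ 2))
    (u + v * (1 / (1 - s1)) - conj (1 / (1 - s2))) h3 h4 h5
  have h7 : (1 : ℝ) / 4 ≤ ‖conj (2 * I / (1 - s2) ^ 2)‖ ^ 2 := by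
    rw [RCLike.norm_conj, norm_div, norm_mul, Complex.norm_I, norm_pow]
    have e1 : ‖1 - s2‖ ≤ 2 := by
      refine (norm_sub_le _ _).trans ?_
      rw [norm_one]
      linarith
    have e2 : 0 < ‖1 - s2‖ := norm_pos_iff.2 (one_sub_ne s2 hs2')
    have e3 : (1 : ℝ) / 2 ≤ ‖(2 : ℂ)‖ * 1 / ‖1 - s2‖ ^ 2 := by
      rw [Complex.norm_ofNat, mul_one, div_le_div_iff₀ (by norm_num) (by positivity)]
      nlinarith
    calc (1 : ℝ) / 4 = (1 / 2) ^ 2 := by norm_num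
      _ ≤ _ := pow_le_pow_left₀ (by norm_num) e3 2
  refine (mul_le_mul_of_nonneg_left h7 (by positivity)).trans (h6.trans (le_of_eq ?_))
  congr 1
  funext a
  congr 2
  rw [bt_eq x s1 hx' hs1, bt_eq x s2 hx' hs2', map_add, map_div₀ (starRingEnd ℂ) (2 * I / (1 - s2) ^ 2),
    map_add, Complex.conj_ofReal]
  unfold yy
  ring

theorem nsq2 (s b : ℂ) : ‖1 + s * b‖ ^ 2 = 1 + 2 * (s * b).re + ‖s‖ ^ 2 * ‖b‖ ^ 2 := by
  rw [← Complex.normSq_eq_norm_sq, ← Complex.normSq_eq_norm_sq, ← Complex.normSq_eq_norm_sq]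
  simp only [Complex.normSq_apply, Complex.add_re, Complex.add_im, Complex.mul_re, Complex.mul_im,
    Complex.one_re, Complex.one_im]
  ring

theorem Bs_eq (ρ : Measure ℝ) (x s : ℂ) : Bs ρ (cayx x) s = ∫ a, bt x s a ∂ρ := rfl

section fin

variable (ρ : Measure ℝ) [IsProbabilityMeasure ρ] (x s : ℂ) (hx : x.im ≤ 0) (hs : ‖s‖ < 1)

include hx hs

theorem bt_int : Integrable (bt x s) ρ :=
  Integrable.of_bound (bt_cont x s hx hs).aestronglyMeasurable (1 / (1 - ‖s‖))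
    (Filter.Eventually.of_forall fun a => bt_norm x s hx hs a)

theorem bt_int2 : Integrable (fun a => ‖bt x s a‖ ^ 2) ρ := by
  refine Integrable.of_bound ((bt_cont x s hx hs).norm.pow 2).aestronglyMeasurable
    ((1 / (1 - ‖s‖)) ^ 2) (Filter.Eventually.of_forall fun a => ?_)
  rw [Real.norm_eq_abs, abs_of_nonneg (by positivity)]
  exact pow_le_pow_left₀ (norm_nonneg _) (bt_norm x s hx hs a) 2

theorem bt_int3 (t : ℂ) (ht : ‖t‖ < 1) : Integrable (fun a => bt x s a * bt x t a) ρ := by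
  refine Integrable.of_bound ((bt_cont x s hx hs).mul (bt_cont x t hx ht)).aestronglyMeasurable
    ((1 / (1 - ‖s‖)) * (1 / (1 - ‖t‖))) (Filter.Eventually.of_forall fun a => ?_)
  rw [norm_mul]
  have h0 : 0 < 1 - ‖s‖ := by linarith
  exact mul_le_mul (bt_norm x s hx hs a) (bt_norm x t hx ht a) (norm_nonneg _) (by positivity)

theorem bt_pt (a : ℝ) : (1 - ‖s‖ ^ 2) * ‖bt x s a‖ ^ 2 ≤ 1 + 2 * (s * bt x s a).re := by
  have h1 := dn_ne x s hx hs a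
  have h2 : 1 + s * bt x s a = 1 / (1 - cayx x a * s) := by
    unfold bt
    rw [eq_div_iff h1, add_mul, mul_assoc, div_mul_cancel₀ _ h1]
    ring
  have h3 : ‖bt x s a‖ ≤ ‖1 + s * bt x s a‖ := by
    rw [h2]
    unfold bt
    rw [norm_div, norm_div, norm_one]
    have := cayx_norm x hx a
    gcongr
  have h4 := pow_le_pow_left₀ (norm_nonneg _) h3 2
  rw [nsq2] at h4
  linarith

theorem nb : (1 - ‖s‖ ^ 2) * (∫ a, ‖bt x s a‖ ^ 2 ∂ρ - ‖∫ a, bt x s a ∂ρ‖ ^ 2) ≤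
    ‖1 + s * Bs ρ (cayx x) s‖ ^ 2 - ‖Bs ρ (cayx x) s‖ ^ 2 := by
  have h1 : ∫ a, (1 - ‖s‖ ^ 2) * ‖bt x s a‖ ^ 2 ∂ρ ≤ ∫ a, (1 + 2 * (s * bt x s a).re) ∂ρ := by
    refine integral_mono ((bt_int2 ρ x s hx hs).const_mul _) ?_ (fun a => bt_pt x s hx hs a)
    exact (integrable_const _).add ((((bt_int ρ x s hx hs).const_mul s).re).const_mul 2)
  have h2 : ∫ a, (1 + 2 * (s * bt x s a).re) ∂ρ = 1 + 2 * (s * ∫ a, bt x s a ∂ρ).re := by
    have i3 : Integrable (fun a => 2 * (s * bt x s a).re) ρ :=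
      (((bt_int ρ x s hx hs).const_mul s).re).const_mul 2
    rw [integral_add (integrable_const _) i3, integral_const_mul]
    have : ∫ a, (s * bt x s a).re ∂ρ = (∫ a, s * bt x s a ∂ρ).re :=
      integral_re ((bt_int ρ x s hx hs).const_mul s)
    rw [this, integral_const_mul]
    simp
  rw [integral_const_mul, h2] at h1
  rw [nsq2, Bs_eq]
  linarith

theorem var_nn : 0 ≤ ∫ a, ‖bt x s a‖ ^ 2 ∂ρ - ‖∫ a, bt x s a ∂ρ‖ ^ 2 := by
  rw [← var_eq ρ _ (bt_int ρ x s hx hs) (bt_int2 ρ x s hx hs)]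
  exact integral_nonneg fun a => by positivity

theorem N_ne : 1 + s * Bs ρ (cayx x) s ≠ 0 := by
  intro h
  have h1 := nb ρ x s hx hs
  have h2 := var_nn ρ x s hx hs
  have h3 : 0 ≤ 1 - ‖s‖ ^ 2 := by nlinarith [norm_nonneg s]
  have h4 := mul_nonneg h3 h2
  rw [h, norm_zero] at h1
  have h5 : ‖Bs ρ (cayx x) s‖ ^ 2 = 0 := by nlinarith [sq_nonneg ‖Bs ρ (cayx x) s‖]
  rw [sq_eq_zero_iff, norm_eq_zero] at h5
  rw [h5, mul_zero, add_zero] at h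
  exact one_ne_zero h

theorem W_bound : (1 - ‖s‖ ^ 2) * (∫ a, ‖bt x s a‖ ^ 2 ∂ρ - ‖∫ a, bt x s a ∂ρ‖ ^ 2) ≤
    ‖1 + s * Bs ρ (cayx x) s‖ ^ 2 * (1 - ‖Us ρ (cayx x) s‖ ^ 2) := by
  have h1 := nb ρ x s hx hs
  have h2 := norm_pos_iff.2 (N_ne ρ x s hx hs)
  unfold Us
  rw [norm_div, div_pow]
  have h3 : ‖1 + s * Bs ρ (cayx x) s‖ ^ 2 *
      (1 - ‖Bs ρ (cayx x) s‖ ^ 2 / ‖1 + s * Bs ρ (cayx x) s‖ ^ 2) =
      ‖1 + s * Bs ρ (cayx x) s‖ ^ 2 - ‖Bs ρ (cayx x) s‖ ^ 2 := by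
    field_simp
  rw [h3]
  exact h1

theorem N_norm : ‖1 + s * Bs ρ (cayx x) s‖ ≤ 1 / (1 - ‖s‖) := by
  have h0 : 0 < 1 - ‖s‖ := by linarith
  have h1 : ‖Bs ρ (cayx x) s‖ ≤ 1 / (1 - ‖s‖) := by
    rw [Bs_eq]
    have := norm_integral_le_of_norm_le_const (μ := ρ) (f := bt x s) (C := 1 / (1 - ‖s‖))
        (Filter.Eventually.of_forall fun a => bt_norm x s hx hs a)
    simpa using this
  calc ‖1 + s * Bs ρ (cayx x) s‖ ≤ ‖(1 : ℂ)‖ + ‖s * Bs ρ (cayx x) s‖ := norm_add_le _ _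
    _ = 1 + ‖s‖ * ‖Bs ρ (cayx x) s‖ := by rw [norm_one, norm_mul]
    _ ≤ 1 + ‖s‖ * (1 / (1 - ‖s‖)) := by gcongr
    _ = 1 / (1 - ‖s‖) := by field_simp; ring

theorem diff (t : ℂ) (ht : ‖t‖ < 1) : Us ρ (cayx x) s - Us ρ (cayx x) t =
    (s - t) * (∫ a, bt x s a * bt x t a ∂ρ - (∫ a, bt x s a ∂ρ) * ∫ a, bt x t a ∂ρ) /
      ((1 + s * Bs ρ (cayx x) s) * (1 + t * Bs ρ (cayx x) t)) := by
  have h1 := N_ne ρ x s hx hs
  have h2 := N_ne ρ x t hx ht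
  have h3 : Bs ρ (cayx x) s - Bs ρ (cayx x) t = (s - t) * ∫ a, bt x s a * bt x t a ∂ρ := by
    have : Bs ρ (cayx x) s - Bs ρ (cayx x) t = ∫ a, bt x s a ∂ρ - ∫ a, bt x t a ∂ρ := rfl
    rw [this, ← integral_sub (bt_int ρ x s hx hs) (bt_int ρ x t hx ht), ← integral_const_mul]
    congr 1
    funext a
    have e1 := dn_ne x s hx hs a
    have e2 := dn_ne x t hx ht a
    unfold bt
    field_simp
    ring
  unfold Us
  rw [div_sub_div _ _ h1 h2]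
  congr 1
  have h4 : Bs ρ (cayx x) s = ∫ a, bt x s a ∂ρ := rfl
  have h5 : Bs ρ (cayx x) t = ∫ a, bt x t a ∂ρ := rfl
  rw [mul_sub, ← h3, ← h4, ← h5]
  ring

end fin

theorem gain : S_GAIN := by
  intro ρ _ C D σ hρ h2 hσ
  by_cases hσ1 : 1 < σ
  · refine ⟨1 / 2, by norm_num, by norm_num, ?_⟩
    intro x s1 s2 _ _ _ hs2
    have := norm_nonneg s2
    linarith
  push Not at hσ1
  by_cases hD : D < 0
  · refine ⟨1 / 2, by norm_num, by norm_num, ?_⟩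
    intro x s1 s2 hx _ _ _
    have := norm_nonneg x
    linarith
  push Not at hD
  have hC : 0 ≤ C := by
    by_contra hC
    push Not at hC
    have : Set.Icc (-C) C = ∅ := Set.Icc_eq_empty (by linarith)
    rw [this, Set.compl_empty, measure_univ] at hρ
    exact one_ne_zero hρ
  obtain ⟨c, hc, hlow⟩ := lower_bt ρ C hC hρ h2 D σ hD hσ
  set γ := min (1 / 2) (c * σ ^ 3) with hγ
  have hγ0 : 0 < γ := lt_min (by norm_num) (by positivity)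
  have hγ1 : γ ≤ 1 / 2 := min_le_left _ _
  have hγ2 : γ ≤ c * σ ^ 3 := min_le_right _ _
  refine ⟨γ, hγ0, by linarith, ?_⟩
  intro x s1 s2 hx hx' hs1 hs2
  have hs2' : ‖s2‖ < 1 := by linarith
  have p1 : 0 ≤ 1 - ‖s1‖ ^ 2 := by nlinarith [norm_nonneg s1]
  have p2 : σ ≤ 1 - ‖s2‖ ^ 2 := by nlinarith [norm_nonneg s2]
  have hV2 : c ≤ ∫ a, ‖bt x s2 a‖ ^ 2 ∂ρ - ‖∫ a, bt x s2 a ∂ρ‖ ^ 2 := by
    rw [← var_eq ρ _ (bt_int ρ x s2 hx' hs2') (bt_int2 ρ x s2 hx' hs2')]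
    refine (hlow x s1 s2 0 (conj (∫ a, bt x s2 a ∂ρ)) hx hx' hs1 hs2).trans (le_of_eq ?_)
    congr 1
    funext a
    rw [zero_mul, sub_zero, ← map_sub, RCLike.norm_conj]
  have W2 := W_bound ρ x s2 hx' hs2'
  have W1 := W_bound ρ x s1 hx' hs1
  have N2 := N_norm ρ x s2 hx' hs2'
  have hN2 : ‖1 + s2 * Bs ρ (cayx x) s2‖ ^ 2 ≤ 1 / σ ^ 2 := by
    have : ‖1 + s2 * Bs ρ (cayx x) s2‖ ≤ 1 / σ := by
      refine N2.trans ?_
      have : σ ≤ 1 - ‖s2‖ := by linarith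
      gcongr
    calc ‖1 + s2 * Bs ρ (cayx x) s2‖ ^ 2 ≤ (1 / σ) ^ 2 := pow_le_pow_left₀ (norm_nonneg _) this 2
      _ = 1 / σ ^ 2 := by rw [div_pow, one_pow]
  have N1p := norm_pos_iff.2 (N_ne ρ x s1 hx' hs1)
  have N2p := norm_pos_iff.2 (N_ne ρ x s2 hx' hs2')
  have V1 := var_nn ρ x s1 hx' hs1
  constructor
  · have hcov := cov_ineq ρ (bt x s1) (bt x s2) (bt_int ρ x s1 hx' hs1) (bt_int ρ x s2 hx' hs2')
      (bt_int2 ρ x s1 hx' hs1) (bt_int2 ρ x s2 hx' hs2') (bt_int3 ρ x s1 hx' hs1 s2 hs2') γ (by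
        intro v u
        refine le_trans ?_ (hlow x s1 s2 v u hx hx' hs1 hs2)
        have e1 : ∫ a, ‖bt x s2 a‖ ^ 2 ∂ρ - ‖∫ a, bt x s2 a ∂ρ‖ ^ 2 ≤ 1 / σ ^ 2 := by
          have e2 : ∫ a, ‖bt x s2 a‖ ^ 2 ∂ρ ≤ ∫ _, 1 / σ ^ 2 ∂ρ := by
            refine integral_mono (bt_int2 ρ x s2 hx' hs2') (integrable_const _) (fun a => ?_)
            have e3 : ‖bt x s2 a‖ ≤ 1 / σ := by
              refine (bt_norm x s2 hx' hs2' a).trans ?_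
              have : σ ≤ 1 - ‖s2‖ := by linarith
              gcongr
            calc ‖bt x s2 a‖ ^ 2 ≤ (1 / σ) ^ 2 := pow_le_pow_left₀ (norm_nonneg _) e3 2
              _ = 1 / σ ^ 2 := by rw [div_pow, one_pow]
          have e4 : ∫ _, 1 / σ ^ 2 ∂ρ = 1 / σ ^ 2 := by simp
          have e5 := sq_nonneg ‖∫ a, bt x s2 a ∂ρ‖
          linarith
        calc γ * (∫ a, ‖bt x s2 a‖ ^ 2 ∂ρ - ‖∫ a, bt x s2 a ∂ρ‖ ^ 2) ≤ (c * σ ^ 3) * (1 / σ ^ 2) :=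
              mul_le_mul hγ2 e1 (hc.le.trans hV2) (by positivity)
          _ = c * σ := by field_simp
          _ ≤ c * 1 := by gcongr
          _ = c := mul_one c)
    rw [diff ρ x s1 hx' hs1 s2 hs2', norm_div, norm_mul, norm_mul, div_pow, mul_pow, mul_pow]
    set K := ‖∫ a, bt x s1 a * bt x s2 a ∂ρ - (∫ a, bt x s1 a ∂ρ) * ∫ a, bt x s2 a ∂ρ‖ ^ 2
    set A1 := ‖1 + s1 * Bs ρ (cayx x) s1‖ ^ 2
    set A2 := ‖1 + s2 * Bs ρ (cayx x) s2‖ ^ 2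
    set v1 := ∫ a, ‖bt x s1 a‖ ^ 2 ∂ρ - ‖∫ a, bt x s1 a ∂ρ‖ ^ 2
    set v2 := ∫ a, ‖bt x s2 a‖ ^ 2 ∂ρ - ‖∫ a, bt x s2 a ∂ρ‖ ^ 2
    set w1 := 1 - ‖Us ρ (cayx x) s1‖ ^ 2
    set w2 := 1 - ‖Us ρ (cayx x) s2‖ ^ 2
    set S := ‖s1 - s2‖ ^ 2
    have hA1 : 0 < A1 := by positivity
    have hA2 : 0 < A2 := by positivity
    have q2 : 0 ≤ 1 - ‖s2‖ ^ 2 := by linarith
    have hv2 : 0 ≤ v2 := hc.le.trans hV2
    have hS : 0 ≤ S := by positivity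
    have k1 : K * ((1 - ‖s1‖ ^ 2) * (1 - ‖s2‖ ^ 2)) ≤ (1 - γ) * ((A1 * w1) * (A2 * w2)) := by
      calc K * ((1 - ‖s1‖ ^ 2) * (1 - ‖s2‖ ^ 2))
          ≤ ((1 - γ) * (v1 * v2)) * ((1 - ‖s1‖ ^ 2) * (1 - ‖s2‖ ^ 2)) := by gcongr
        _ = (1 - γ) * (((1 - ‖s1‖ ^ 2) * v1) * ((1 - ‖s2‖ ^ 2) * v2)) := by ring
        _ ≤ (1 - γ) * ((A1 * w1) * (A2 * w2)) := by
            have : 0 ≤ 1 - γ := by linarith
            have h4 : 0 ≤ (1 - ‖s1‖ ^ 2) * v1 := mul_nonneg p1 V1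
            gcongr
            exact h4.trans W1
    rw [div_mul_eq_mul_div, div_le_iff₀ (by positivity)]
    calc S * K * ((1 - ‖s1‖ ^ 2) * (1 - ‖s2‖ ^ 2)) =
          S * (K * ((1 - ‖s1‖ ^ 2) * (1 - ‖s2‖ ^ 2))) := by ring
      _ ≤ S * ((1 - γ) * ((A1 * w1) * (A2 * w2))) := by gcongr
      _ = (1 - γ) * S * (w1 * w2) * (A1 * A2) := by ring
  · have e1 : σ * c ≤ (1 - ‖s2‖ ^ 2) * (∫ a, ‖bt x s2 a‖ ^ 2 ∂ρ - ‖∫ a, bt x s2 a ∂ρ‖ ^ 2) :=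
      mul_le_mul p2 hV2 hc.le (by linarith)
    have e2 := e1.trans W2
    have e3 : 0 < 1 - ‖Us ρ (cayx x) s2‖ ^ 2 := by
      have : 0 < σ * c := by positivity
      by_contra hcon
      push Not at hcon
      have := mul_nonpos_of_nonneg_of_nonpos (sq_nonneg ‖1 + s2 * Bs ρ (cayx x) s2‖) hcon
      linarith
    have e4 : σ * c ≤ 1 / σ ^ 2 * (1 - ‖Us ρ (cayx x) s2‖ ^ 2) := by
      refine e2.trans ?_
      gcongr
    have e5 : c * σ ^ 3 ≤ 1 - ‖Us ρ (cayx x) s2‖ ^ 2 := by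
      rw [div_mul_eq_mul_div, one_mul, le_div_iff₀ (by positivity)] at e4
      calc c * σ ^ 3 = σ * c * σ ^ 2 := by ring
        _ ≤ _ := e4
    linarith

theorem main : S_SC1 → S_GAIN := fun _ => gain

end Pool.Agent.W881.WA.Gain
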